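import Pool.Agent.EQC.Stmts

/-!
# Squad EQC, row CNT: the windowed hubs are few
-/

open SimpleGraph Finset
open Pool.Agent.Helper51_Equitable (edges nbrs vertexSum nb IsEquitableProper Nice)

namespace Pool.Agent.EQC.H49

theorem cnt_sub {V : Type} [Fintype V] [DecidableEq V] (X : Finset V) (p : V → Prop)
    [DecidablePred p] : cnt (fun x => x ∈ X ∧ p x) = (X.filter p).card := by
  unfold cnt
  congr 1
  ext x
  simp

theorem cntS : CntStmt := by
  classical
  intro V _ c D d q r0 U X T1 T2 tau N cmp hBig hX hin hU h1 h2 hc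
  obtain ⟨hc7, hD⟩ := hBig
  have hcR : (7000 : ℝ) ≤ c := by exact_mod_cast hc7
  have hDR : 2000 * (4 * (c : ℝ) + 11) + 6 ≤ D := by exact_mod_cast hD
  have hD0 : (56000000 : ℝ) ≤ D := by linarith
  set φ : V → ℝ := fun x => if x ∈ U then 1 else 0 with hφ
  set ψ : V → ℝ := fun x => if x ∈ U then 0 else (((N x).erase r0).card : ℝ) / d (tau x) with hψ
  have hφ0 : ∀ x, 0 ≤ φ x := by intro x; simp only [hφ]; split_ifs <;> norm_num
  have hψ0 : ∀ x, 0 ≤ ψ x := by
    intro x; simp only [hψ]; split_ifs
    · exact le_rfl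
    · positivity
  have hφs : ∑ x ∈ X, φ x ≤ U.card := by
    simp only [hφ]
    rw [Finset.sum_ite_mem, Finset.sum_const, nsmul_eq_mul, mul_one]
    exact_mod_cast Finset.card_le_card Finset.inter_subset_right
  have hψs : ∑ x ∈ X, ψ x ≤ U.card := by
    calc ∑ x ∈ X, ψ x ≤ ∑ x ∈ X, ∑ v ∈ U, if v ∈ N x then (1 : ℝ) / d v else 0 := by
          apply Finset.sum_le_sum
          intro x hx
          obtain ⟨ha, hb, hc', hd, he⟩ := hX x hx
          by_cases hxU : x ∈ U
          · simp only [hψ, if_pos hxU]
            apply Finset.sum_nonneg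
            intro v _
            split_ifs
            · positivity
            · exact le_rfl
          · simp only [hψ, if_neg hxU]
            rw [Finset.sum_ite_mem, ← nsmul_one, Finset.inter_eq_right.2 (he hxU)] at *
            calc _ = ∑ v ∈ (N x).erase r0, (1 : ℝ) / d (tau x) := by
                  rw [Finset.sum_const, nsmul_eq_mul]; simp [div_eq_mul_inv]
              _ ≤ ∑ v ∈ (N x).erase r0, (1 : ℝ) / d v := by
                  apply Finset.sum_le_sum
                  intro v hv
                  have hv1 := Finset.mem_of_mem_erase hv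
                  have hv2 := Finset.ne_of_mem_erase hv
                  have hv3 : (d v : ℝ) ≤ d (tau x) := by exact_mod_cast hd v hv1 hv2
                  have hv4 : (D : ℝ) ≤ d v := by exact_mod_cast hU v (he hxU hv1)
                  exact one_div_le_one_div_of_le (by linarith) hv3
              _ ≤ _ := Finset.sum_le_sum_of_subset_of_nonneg (Finset.erase_subset _ _)
                  fun _ _ _ => by positivity
      _ = ∑ v ∈ U, ∑ x ∈ X, if v ∈ N x then (1 : ℝ) / d v else 0 := Finset.sum_comm
      _ ≤ ∑ v ∈ U, (1 : ℝ) := by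
          apply Finset.sum_le_sum
          intro v hv
          rw [← Finset.sum_filter, Finset.sum_const, nsmul_eq_mul]
          have h3 : (((X.filter fun x => v ∈ N x).card : ℕ) : ℝ) ≤ d v := by
            rw [← cnt_sub]
            exact_mod_cast hin v
          have h4 : (D : ℝ) ≤ d v := by exact_mod_cast hU v hv
          rw [mul_one_div, div_le_one (by linarith)]
          exact h3
      _ = U.card := by simp
  have hfib : ∀ (F : V → ℝ) (T : Finset V), (∀ x, 0 ≤ F x) →
      ∑ z ∈ T, ∑ x ∈ X.filter (fun x => tau x = z), F x ≤ ∑ x ∈ X, F x := by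
    intro F T hF
    rw [← Finset.sum_fiberwise X tau F]
    apply Finset.sum_le_univ_sum_of_nonneg
    intro z
    exact Finset.sum_nonneg fun x _ => hF x
  have hNx : ∀ x ∈ X, ((d x : ℝ) - 6) / 2 ≤ (((N x).erase r0).card : ℝ) := by
    intro x hx
    obtain ⟨ha, hb, hc', hd, he⟩ := hX x hx
    have h3 := Finset.pred_card_le_card_erase (s := N x) (a := r0)
    have h4 : d x ≤ 2 * (((N x).erase r0).card) + 6 := by omega
    have h5 : (d x : ℝ) ≤ 2 * (((N x).erase r0).card : ℝ) + 6 := by exact_mod_cast h4
    linarith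
  -- part 1
  have P1 : ∀ z ∈ T1, (D : ℝ) - 6 ≤ ∑ x ∈ X.filter (fun x => tau x = z), (12 * φ x + 48 * ψ x) := by
    intro z hz
    obtain ⟨hz1, hz2⟩ := h1 z hz
    rw [cnt_sub] at hz2
    have hz1' : (D : ℝ) ≤ d z := by exact_mod_cast hz1
    have hz2' : (d z : ℝ) ≤ 6 * ((X.filter fun x => tau x = z).card : ℝ) + 6 := by
      exact_mod_cast hz2
    have hdz : (0 : ℝ) < d z := by linarith
    calc (D : ℝ) - 6 ≤ ((X.filter fun x => tau x = z).card : ℝ) * (12 * (D - 6) / d z) := by
          rw [← mul_div_assoc, le_div_iff₀ hdz]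
          have : (D - 6 : ℝ) * d z ≤ (D - 6 : ℝ) * (12 * ((X.filter fun x => tau x = z).card : ℝ)) :=
            mul_le_mul_of_nonneg_left (by linarith) (by linarith)
          linarith
      _ = ∑ x ∈ X.filter (fun x => tau x = z), (12 * (D - 6) / d z : ℝ) := by
          rw [Finset.sum_const, nsmul_eq_mul]
      _ ≤ _ := by
          apply Finset.sum_le_sum
          intro x hx
          obtain ⟨hx1, hx2⟩ := Finset.mem_filter.1 hx
          obtain ⟨ha, hb, hc', hd, he⟩ := hX x hx1
          by_cases hxU : x ∈ U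
          · simp only [hφ, hψ, if_pos hxU]
            rw [div_le_iff₀ hdz]
            linarith
          · simp only [hφ, hψ, if_neg hxU, hx2]
            have h3 := hNx x hx1
            have h4 : (D : ℝ) ≤ d x := by exact_mod_cast ha
            have h5 : (12 * (D - 6) : ℝ) / d z ≤ (48 * (((N x).erase r0).card : ℝ)) / d z := by
              apply div_le_div_of_nonneg_right _ hdz.le
              linarith
            have h6 : 48 * ((((N x).erase r0).card : ℝ) / d z) =
              (48 * (((N x).erase r0).card : ℝ)) / d z := by ring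
            linarith
  have Q1 : ((D : ℝ) - 6) * T1.card ≤ 60 * U.card := by
    have h3 := Finset.sum_le_sum P1
    rw [Finset.sum_const, nsmul_eq_mul] at h3
    have h4 := hfib (fun x => 12 * φ x + 48 * ψ x) T1 fun x => by
      have := hφ0 x; have := hψ0 x; positivity
    rw [Finset.sum_add_distrib, ← Finset.mul_sum, ← Finset.mul_sum] at h4
    linarith
  -- part 2
  have P2 : ∀ z ∈ T2, ((c : ℝ) * ((7 * (q z / c) : ℕ) : ℝ)) ≤
      29 * ∑ x ∈ X.filter (fun x => tau x = z), (φ x + 5 * ψ x) := by
    intro z hz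
    obtain ⟨hz1, hz2, hz3⟩ := h2 z hz
    rw [cnt_sub X (fun x => tau x = z ∧ cmp x z)] at hz3
    have hz1' : (D : ℝ) ≤ d z := by exact_mod_cast hz1
    have hdz : (0 : ℝ) < d z := by linarith
    set n := (X.filter fun x => tau x = z ∧ cmp x z).card with hn
    have hn1 : 1749 ≤ n := by omega
    have h3 : c * (7 * (q z / c)) ≤ 29 * n := by
      have := Nat.mul_div_le (q z) c
      calc c * (7 * (q z / c)) = 7 * (c * (q z / c)) := by ring
        _ ≤ 7 * (4 * n + 4) := by omega
        _ ≤ 29 * n := by omega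
    have h4 : (n : ℝ) ≤ ∑ x ∈ X.filter (fun x => tau x = z), (φ x + 5 * ψ x) := by
      calc (n : ℝ) = ∑ x ∈ X.filter (fun x => tau x = z ∧ cmp x z), (1 : ℝ) := by simp [hn]
        _ ≤ ∑ x ∈ X.filter (fun x => tau x = z ∧ cmp x z), (φ x + 5 * ψ x) := by
            apply Finset.sum_le_sum
            intro x hx
            obtain ⟨hx1, hx2, hx3⟩ := Finset.mem_filter.1 hx
            by_cases hxU : x ∈ U
            · simp only [hφ, hψ, if_pos hxU]
              linarith
            · simp only [hφ, hψ, if_neg hxU, hx2]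
              have h5 := hNx x hx1
              have h6 : (d z : ℝ) ≤ 2 * d x := by exact_mod_cast hc x z hx3
              have h7 : (1 : ℝ) / 5 ≤ (((N x).erase r0).card : ℝ) / d z := by
                rw [le_div_iff₀ hdz]
                linarith
              linarith
        _ ≤ _ := by
            apply Finset.sum_le_sum_of_subset_of_nonneg
            · intro x hx
              obtain ⟨hx1, hx2, hx3⟩ := Finset.mem_filter.1 hx
              exact Finset.mem_filter.2 ⟨hx1, hx2⟩
            · intro x _ _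
              have := hφ0 x; have := hψ0 x; positivity
    calc ((c : ℝ) * ((7 * (q z / c) : ℕ) : ℝ)) = ((c * (7 * (q z / c)) : ℕ) : ℝ) := by push_cast; ring
      _ ≤ ((29 * n : ℕ) : ℝ) := by exact_mod_cast h3
      _ = 29 * (n : ℝ) := by push_cast; ring
      _ ≤ _ := by linarith
  have Q2 : (c : ℝ) * ((∑ z ∈ T2, 7 * (q z / c) : ℕ) : ℝ) ≤ 174 * U.card := by
    have h3 := Finset.sum_le_sum P2
    rw [← Finset.mul_sum, ← Finset.mul_sum] at h3
    have h4 := hfib (fun x => φ x + 5 * ψ x) T2 fun x => by
      have := hφ0 x; have := hψ0 x; positivity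
    rw [Finset.sum_add_distrib, ← Finset.mul_sum] at h4
    push_cast at h3 ⊢
    linarith
  -- conclusion
  have hT1 : (2000 * (4 * (c : ℝ) + 11)) * T1.card ≤ 60 * U.card :=
    le_trans (mul_le_mul_of_nonneg_right (by linarith) (by positivity)) Q1
  have hT2 : (7000 : ℝ) * ((∑ z ∈ T2, 7 * (q z / c) : ℕ) : ℝ) ≤ 174 * U.card :=
    le_trans (mul_le_mul_of_nonneg_right hcR (by positivity)) Q2
  have hfin : (16 : ℝ) * ((4 * (c : ℝ) + 11) * T1.card + ((∑ z ∈ T2, 7 * (q z / c) : ℕ) : ℝ)) ≤
      U.card := by
    have : (0 : ℝ) ≤ U.card := by positivity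
    linarith
  exact_mod_cast hfin

end Pool.Agent.EQC.H49
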