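import Pool.Agent.EQC.Stmts

/-!
# Squad EQC, row EDG: all edges of all items are different edges of the graph
-/

open SimpleGraph Finset
open Pool.Agent.Helper51_Equitable (edges nbrs vertexSum nb IsEquitableProper Nice mem_edges)

namespace Pool.Agent.EQC.H49

variable {V : Type} [Fintype V] {G : SimpleGraph V} {c D : ℕ}

theorem out_inj {M : Finset (Sym2 V)} {Out : V → V → Prop} (h : Orient G D M Out) {x v x' v' : V}
    (h1 : Out x v) (h2 : Out x' v') (he : s(x, v) = s(x', v')) : x = x' ∧ v = v' := by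
  rcases Sym2.eq_iff.1 he with h3 | ⟨rfl, rfl⟩
  · exact h3
  · exact absurd h2 (h.asymm _ _ h1)

theorem out_edge {M : Finset (Sym2 V)} {Out : V → V → Prop} (h : Orient G D M Out) {x v : V}
    (h1 : Out x v) : s(x, v) ∈ edges G := mem_edges.2 (h.adj _ _ h1)

/-- data of the free edge of an item -/
theorem free_data {d : Dat G D} (s : Sel c d) (p : Sup c d) (i : Idx V c) (hi : Ok s i) :
    (∃ x v, i = Sum.inl (x, v) ∧ x ∈ s.NF v ∧ Hi G D x ∧ x ≠ d.r0 ∧ v ∈ d.F x ∧ Hi G D v ∧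
        d.Out x v ∧ v ≠ d.tau x ∧ E0 p i = s(x, v)) ∨
    (∃ x, i = Sum.inr (Sum.inl (x, d.tau x)) ∧ x ∈ s.WF (d.tau x) ∧ Hi G D x ∧ x ≠ d.r0 ∧
        d.Out x (d.tau x) ∧ Xw s x ∧ E0 p i = s(x, d.tau x)) ∨
    (∃ t j, i = Sum.inr (Sum.inr (t, j)) ∧ LT G D d.Out t ∧ t ≠ d.r0 ∧ ¬ Hi G D (p.a t j) ∧
        d.Out (p.a t j) t ∧ E0 p i = s(p.a t j, t)) := by
  rcases i with ⟨x, v⟩ | ⟨x, v⟩ | ⟨t, j⟩
  · left
    have hx : x ∈ s.NF v := hi
    obtain ⟨h1, h2, h3⟩ := s.NF_sub v x hx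
    obtain ⟨h4, h5, h6⟩ := d.F_sub x h1 h2 v h3
    exact ⟨x, v, rfl, hx, h1, h2, h3, h4, h5, h6, rfl⟩
  · right; left
    have hx : x ∈ s.WF v := hi
    obtain ⟨h1, h2, h3⟩ := s.WF_sub v x hx
    subst h3
    exact ⟨x, rfl, hx, h1, h2, d.tau_out x h1 h2, hx, rfl⟩
  · right; right
    obtain ⟨h1, h2⟩ : LT G D d.Out t ∧ Act d t := hi
    obtain ⟨h3, h4⟩ := p.a_mem t j h1 h2.2.1
    exact ⟨t, j, rfl, h1, h2.2.1, h3, h4, rfl⟩

/-- data of the partner edge of an item -/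
theorem part_data {d : Dat G D} (s : Sel c d) (w : Win s) (p : Sup c d) (i : Idx V c)
    (hi : Ok s i) :
    (∃ x v y, i = Sum.inl (x, v) ∧ Hi G D x ∧ x ≠ d.r0 ∧ v ∈ d.F x ∧ d.par x v = some y ∧
        Hi G D y ∧ d.Out x y ∧ y ≠ d.tau x ∧ y ∉ d.F x ∧ E1 w p i = s(x, y)) ∨
    (∃ x v, i = Sum.inl (x, v) ∧ Hi G D x ∧ x ≠ d.r0 ∧ v ∈ d.F x ∧ d.par x v = none ∧
        ¬ Xw s x ∧ d.Out x (d.tau x) ∧ E1 w p i = s(x, d.tau x)) ∨
    (∃ x v, i = Sum.inl (x, v) ∧ Hi G D x ∧ x ≠ d.r0 ∧ v ∈ d.F x ∧ d.par x v = none ∧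
        Xw s x ∧ w.mt x false ∈ d.M ∧ E1 w p i = w.mt x false) ∨
    (∃ x, i = Sum.inr (Sum.inl (x, d.tau x)) ∧ Xw s x ∧ w.mt x true ∈ d.M ∧
        E1 w p i = w.mt x true) ∨
    (∃ t j, i = Sum.inr (Sum.inr (t, j)) ∧ LT G D d.Out t ∧ t ≠ d.r0 ∧ ¬ Hi G D (p.b t j) ∧
        d.Out (p.b t j) (p.nx t) ∧ E1 w p i = s(p.b t j, p.nx t)) := by
  classical
  rcases i with ⟨x, v⟩ | ⟨x, v⟩ | ⟨t, j⟩
  · have hx : x ∈ s.NF v := hi
    obtain ⟨h1, h2, h3⟩ := s.NF_sub v x hx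
    rcases hp : d.par x v with _ | y
    · by_cases hw : Xw s x
      · right; right; left
        refine ⟨x, v, rfl, h1, h2, h3, hp, hw, (w.mem x false hw).1, ?_⟩
        simp only [E1, hp, if_pos hw]
      · right; left
        refine ⟨x, v, rfl, h1, h2, h3, hp, hw, d.tau_out x h1 h2, ?_⟩
        simp only [E1, hp, if_neg hw]
    · left
      obtain ⟨h4, h5, h6, h7, _⟩ := d.par_some x h1 h2 v h3 y hp
      refine ⟨x, v, y, rfl, h1, h2, h3, hp, h4, h5, h6, h7, ?_⟩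
      simp only [E1, hp]
  · right; right; right; left
    have hx : x ∈ s.WF v := hi
    obtain ⟨h1, h2, h3⟩ := s.WF_sub v x hx
    subst h3
    have hw : Xw s x := hx
    exact ⟨x, rfl, hw, (w.mem x true hw).1, rfl⟩
  · right; right; right; right
    obtain ⟨h1, h2⟩ : LT G D d.Out t ∧ Act d t := hi
    obtain ⟨h3, h4⟩ := p.b_mem t j h1 h2.2.1
    exact ⟨t, j, rfl, h1, h2.2.1, h3, h4, rfl⟩

theorem edg : EdgStmt := by
  intro V _ G c D d s w p
  have O := d.ori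
  have M_edge : ∀ e ∈ d.M, e ∈ edges G := fun e he => (d.mm.edge e he).1
  refine ⟨?_, ?_, ?_, ?_⟩
  · intro i hi
    constructor
    · rcases free_data s p i hi with ⟨x, v, -, -, -, -, -, -, h, -, e⟩ | ⟨x, -, -, -, -, h, -, e⟩ |
        ⟨t, j, -, -, -, -, h, e⟩ <;> rw [e] <;> exact out_edge O h
    · rcases part_data s w p i hi with ⟨x, v, y, -, -, -, -, -, -, h, -, -, e⟩ |
        ⟨x, v, -, -, -, -, -, -, h, e⟩ | ⟨x, v, -, -, -, -, -, -, h, e⟩ | ⟨x, -, -, h, e⟩ |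
        ⟨t, j, -, -, -, -, h, e⟩ <;> rw [e]
      · exact out_edge O h
      · exact out_edge O h
      · exact M_edge _ h
      · exact M_edge _ h
      · exact out_edge O h
  · intro i j hi hj hij
    rcases free_data s p i hi with ⟨x, v, ei, -, hx, -, -, -, h, hv, e⟩ |
      ⟨x, ei, -, hx, -, h, -, e⟩ | ⟨t, k, ei, hL, hr, hx, h, e⟩ <;>
    rcases free_data s p j hj with ⟨x', v', ej, -, hx', -, -, -, h', hv', e'⟩ |
      ⟨x', ej, -, hx', -, h', -, e'⟩ | ⟨t', k', ej, hL', hr', hx', h', e'⟩ <;>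
    rw [e, e'] at hij <;> obtain ⟨g1, g2⟩ := out_inj O h h' hij
    · rw [ei, ej, g1, g2]
    · exact absurd (by rw [g2, g1]) hv
    · exact absurd (g1 ▸ hx) hx'
    · exact absurd (by rw [← g2, g1]) hv'
    · rw [ei, ej, g1]
    · exact absurd (g1 ▸ hx) hx'
    · exact absurd (g1 ▸ hx') hx
    · exact absurd (g1 ▸ hx') hx
    · subst g2
      have := p.a_inj t k k' hL hr g1
      rw [ei, ej, this]
  · intro i j hi hj hij
    rcases part_data s w p i hi with ⟨x, v, y, ei, hx, hr, hv, hp, -, h, ht, hF, e⟩ |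
        ⟨x, v, ei, hx, hr, hv, hp, hw, h, e⟩ | ⟨x, v, ei, hx, hr, hv, hp, hw, h, e⟩ |
        ⟨x, ei, hw, h, e⟩ | ⟨t, k, ei, hL, hr, hx, h, e⟩ <;>
    rcases part_data s w p j hj with ⟨x', v', y', ej, hx', hr', hv', hp', -, h', ht', hF', e'⟩ |
        ⟨x', v', ej, hx', hr', hv', hp', hw', h', e'⟩ |
        ⟨x', v', ej, hx', hr', hv', hp', hw', h', e'⟩ |
        ⟨x', ej, hw', h', e'⟩ | ⟨t', k', ej, hL', hr', hx', h', e'⟩ <;>
    rw [e, e'] at hij
    · obtain ⟨g1, g2⟩ := out_inj O h h' hij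
      subst g1; subst g2
      rw [ei, ej, d.par_inj x hx hr v hv v' hv' (hp.trans hp'.symm)]
    · obtain ⟨g1, g2⟩ := out_inj O h h' hij
      exact absurd (by rw [g2, g1]) ht
    · exact absurd (hij ▸ h') (O.notM _ _ h)
    · exact absurd (hij ▸ h') (O.notM _ _ h)
    · obtain ⟨g1, g2⟩ := out_inj O h h' hij
      exact absurd (g1 ▸ hx) hx'
    · obtain ⟨g1, g2⟩ := out_inj O h h' hij
      exact absurd (by rw [← g2, g1]) ht'
    · obtain ⟨g1, g2⟩ := out_inj O h h' hij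
      subst g1
      rw [ei, ej, d.par_inj x hx hr v hv v' hv' (hp.trans hp'.symm)]
    · exact absurd (hij ▸ h') (O.notM _ _ h)
    · exact absurd (hij ▸ h') (O.notM _ _ h)
    · obtain ⟨g1, g2⟩ := out_inj O h h' hij
      exact absurd (g1 ▸ hx) hx'
    · exact absurd (hij ▸ h) (O.notM _ _ h')
    · exact absurd (hij ▸ h) (O.notM _ _ h')
    · obtain ⟨g1, g2⟩ := w.inj x false x' false hw hw' hij
      subst g1
      rw [ei, ej, d.par_inj x hx hr v hv v' hv' (hp.trans hp'.symm)]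
    · obtain ⟨g1, g2⟩ := w.inj x false x' true hw hw' hij
      exact absurd g2 (by decide)
    · exact absurd (hij ▸ h) (O.notM _ _ h')
    · exact absurd (hij ▸ h) (O.notM _ _ h')
    · exact absurd (hij ▸ h) (O.notM _ _ h')
    · obtain ⟨g1, g2⟩ := w.inj x true x' false hw hw' hij
      exact absurd g2 (by decide)
    · obtain ⟨g1, g2⟩ := w.inj x true x' true hw hw' hij
      rw [ei, ej, g1]
    · exact absurd (hij ▸ h) (O.notM _ _ h')
    · obtain ⟨g1, g2⟩ := out_inj O h h' hij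
      exact absurd (g1 ▸ hx') hx
    · obtain ⟨g1, g2⟩ := out_inj O h h' hij
      exact absurd (g1 ▸ hx') hx
    · exact absurd (hij ▸ h') (O.notM _ _ h)
    · exact absurd (hij ▸ h') (O.notM _ _ h)
    · obtain ⟨g1, g2⟩ := out_inj O h h' hij
      have g3 := p.nx_inj t t' hL hr hL' hr' g2
      subst g3
      have := p.b_inj t k k' hL hr g1
      rw [ei, ej, this]
  · intro i j hi hj hij
    rcases free_data s p i hi with ⟨x, v, ei, -, hx, -, hv, -, h, ht, e⟩ |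
      ⟨x, ei, -, hx, -, h, hw, e⟩ | ⟨t, k, ei, hL, hr, hx, h, e⟩ <;>
    rcases part_data s w p j hj with ⟨x', v', y', ej, hx', hr', hv', hp', -, h', ht', hF', e'⟩ |
        ⟨x', v', ej, hx', hr', hv', hp', hw', h', e'⟩ |
        ⟨x', v', ej, hx', hr', hv', hp', hw', h', e'⟩ |
        ⟨x', ej, hw', h', e'⟩ | ⟨t', k', ej, hL', hr', hx', h', e'⟩ <;>
    rw [e, e'] at hij
    · obtain ⟨g1, g2⟩ := out_inj O h h' hij
      subst g1; subst g2
      exact hF' hv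
    · obtain ⟨g1, g2⟩ := out_inj O h h' hij
      exact ht (by rw [g2, g1])
    · exact O.notM _ _ h (hij ▸ h')
    · exact O.notM _ _ h (hij ▸ h')
    · obtain ⟨g1, g2⟩ := out_inj O h h' hij
      exact hx' (g1 ▸ hx)
    · obtain ⟨g1, g2⟩ := out_inj O h h' hij
      exact ht' (by rw [← g2, g1])
    · obtain ⟨g1, g2⟩ := out_inj O h h' hij
      exact hw' (g1 ▸ hw)
    · exact O.notM _ _ h (hij ▸ h')
    · exact O.notM _ _ h (hij ▸ h')
    · obtain ⟨g1, g2⟩ := out_inj O h h' hij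
      exact hx' (g1 ▸ hx)
    · obtain ⟨g1, g2⟩ := out_inj O h h' hij
      exact hx (g1 ▸ hx')
    · obtain ⟨g1, g2⟩ := out_inj O h h' hij
      exact hx (g1 ▸ hx')
    · exact O.notM _ _ h (hij ▸ h')
    · exact O.notM _ _ h (hij ▸ h')
    · obtain ⟨g1, g2⟩ := out_inj O h h' hij
      exact p.ab t' t k' k hL' hr' hL hr g2.symm g1.symm

end Pool.Agent.EQC.H49
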