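import Pool.Agent.EQC.Stmts

/-!
# Squad EQC, row KAP: colours and fine labels for all families
-/

open SimpleGraph Finset
open Pool.Agent.Helper51_Equitable (edges nbrs vertexSum nb IsEquitableProper Nice)

namespace Pool.Agent.EQC.H49

theorem cnt_le {α : Type} [Fintype α] (p : α → Prop) : cnt p ≤ Fintype.card α := by
  classical
  unfold cnt
  exact Finset.card_le_univ _

theorem exists_mult {n q : ℕ} (hq : 0 < q) : ∃ x a, x < q ∧ n + x = q * a := by
  refine ⟨(n + q - 1) / q * q - n, (n + q - 1) / q, ?_, ?_⟩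
  · have h1 := Nat.div_mul_le_self (n + q - 1) q
    omega
  · have h2 := Nat.div_add_mod (n + q - 1) q
    have h3 := Nat.mod_lt (n + q - 1) hq
    have h1 := Nat.div_mul_le_self (n + q - 1) q
    rw [Nat.mul_comm] at h2
    rw [Nat.mul_comm q]
    omega

theorem kap (hext : ExtStmt) (hka : Ka1Stmt) : KapStmt := by
  intro V _ G D ι _ P q hq h1 h2
  have hqp : 0 < q := by rw [hq]; positivity
  obtain ⟨nA, a, hnA, ha⟩ := exists_mult (n := cnt (fun i => P.ty i = true)) hqp
  obtain ⟨nB, b, hnB, hb⟩ := exists_mult (n := cnt (fun i => P.ty i = false)) hqp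
  have cA := cnt_le (fun i => P.ty i = true)
  have cB := cnt_le (fun i => P.ty i = false)
  obtain ⟨κ', _, Q, f, hf, hA, hB⟩ := hext V G D ι P nA nB (by omega)
  have key : ∀ x y : ℕ, x + y ≤ Fintype.card ι + q → ∀ a, x + y = q * a →
      a ≤ (edges G).card / (4 * q) := by
    intro x y hxy a ha
    rw [Nat.le_div_iff_mul_le (by omega)]
    have : a * (4 * q) = 4 * (q * a) := by ring
    omega
  obtain ⟨k, φ, g1, g2, g3, g4, g5⟩ := hka V G D κ' Q q a b hq (by omega) (by omega)
    (key _ _ (by omega) a ha) (key _ _ (by omega) b hb)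
  refine ⟨k, φ, g1, ?_, ?_, g4, g5⟩
  · intro i
    have := g2 (f i)
    rwa [(hf i).1, (hf i).2.1] at this
  · intro i
    have := g3 (f i)
    rwa [(hf i).1, (hf i).2.1, (hf i).2.2] at this

end Pool.Agent.EQC.H49
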